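import Mathlib

set_option autoImplicit false

/-! # Dismantling solutions in thin cuboids -/

namespace Pool.Agent.Results.MP_93d976_co.ThinCuboids

/-- The unit cubes of the box `C(k,l,m)`. -/
abbrev Cube (k l m : ℕ) : Type := Fin k × Fin l × Fin m

/-- The numbers `a` and `b` differ by exactly `1`. -/
abbrev DiffOne (a b : ℕ) : Prop := a + 1 = b ∨ b + 1 = a

/-- Two cubes are neighbours when their coordinate vectors differ by `1` in exactly one
coordinate (and agree in the other two). -/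
abbrev Adj {k l m : ℕ} (u v : Cube k l m) : Prop :=
  (DiffOne u.1 v.1 ∧ u.2.1 = v.2.1 ∧ u.2.2 = v.2.2) ∨
  (u.1 = v.1 ∧ DiffOne u.2.1 v.2.1 ∧ u.2.2 = v.2.2) ∨
  (u.1 = v.1 ∧ u.2.1 = v.2.1 ∧ DiffOne u.2.2 v.2.2)

/-- A move deletes from the position `S` a cube that has exactly `3` neighbours in `S`. -/
def Move {k l m : ℕ} (S T : Finset (Cube k l m)) : Prop :=
  ∃ v ∈ S, (S.filter (fun w => Adj v w)).card = 3 ∧ T = S.erase v

/-- `C(k,l,m)` has a solution: a set of pairwise non-neighbouring cubes that can be reached from the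
full box by finitely many moves. -/
def HasSolution (k l m : ℕ) : Prop :=
  ∃ S : Finset (Cube k l m), (∀ u ∈ S, ∀ v ∈ S, ¬ Adj u v) ∧
    Relation.ReflTransGen Move Finset.univ S

/-- Statement (a): for `k ≥ 3` with `k ≠ 5`, `C(2,2,k)` has no solution. -/
def StatementA : Prop := ∀ k : ℕ, 3 ≤ k → k ≠ 5 → ¬ HasSolution 2 2 k

/-- Statement (b): for `k ≠ 6`, `C(2,3,k)` has no solution. -/
def StatementB : Prop := ∀ k : ℕ, 1 ≤ k → k ≠ 6 → ¬ HasSolution 2 3 k

/-- Statement (c): `C(3,3,k)` has a solution for every odd `k`, and has no solution for every even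
`k ≠ 4`. -/
def StatementC : Prop :=
  (∀ k : ℕ, 1 ≤ k → Odd k → HasSolution 3 3 k) ∧
  (∀ k : ℕ, 1 ≤ k → Even k → k ≠ 4 → ¬ HasSolution 3 3 k)

variable {k l m : ℕ}

lemma adj_symm {u v : Cube k l m} (h : Adj u v) : Adj v u := by
  rcases h with ⟨h1, h2, h3⟩ | ⟨h1, h2, h3⟩ | ⟨h1, h2, h3⟩
  · exact Or.inl ⟨h1.symm, h2.symm, h3.symm⟩
  · exact Or.inr (Or.inl ⟨h1.symm, h2.symm, h3.symm⟩)
  · exact Or.inr (Or.inr ⟨h1.symm, h2.symm, h3.symm⟩)

lemma not_adj_self (u : Cube k l m) : ¬ Adj u u := by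
  rintro (⟨h, _⟩ | ⟨_, h, _⟩ | ⟨_, _, h⟩) <;> rcases h with h | h <;> omega

/-- Necessary condition: a reachable position carries a removal time. -/
lemma exists_time {X : Finset (Cube k l m)} (h : Relation.ReflTransGen Move Finset.univ X) :
    ∃ t : Cube k l m → ℕ,
      (∀ v, v ∉ X → (Finset.univ.filter (fun w => Adj v w ∧ (w ∈ X ∨ t v < t w))).card = 3) ∧
      (∀ u v, u ∉ X → v ∉ X → u ≠ v → t u ≠ t v) := by
  classical
  induction h with
  | refl => exact ⟨fun _ => 0, fun v hv => absurd (Finset.mem_univ v) hv,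
      fun v _ hv => absurd (Finset.mem_univ v) hv⟩
  | @tail Y Z _ hYZ ih =>
    obtain ⟨t, ht1, ht2⟩ := ih
    obtain ⟨v0, hv0, hc, rfl⟩ := hYZ
    obtain ⟨M, hM⟩ : ∃ M : ℕ, ∀ v, t v < M := by
      refine ⟨(Finset.univ.sup t) + 1, fun v => ?_⟩
      exact Nat.lt_succ_of_le (Finset.le_sup (Finset.mem_univ v))
    refine ⟨Function.update t v0 M, ?_, ?_⟩
    · intro v hv
      by_cases hvv : v = v0
      · subst hvv
        rw [← hc]
        congr 1
        ext w
        simp only [Finset.mem_filter, Finset.mem_univ, true_and, Finset.mem_erase,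
          Function.update_self]
        constructor
        · rintro ⟨h1, h2⟩
          have hwv : w ≠ v := by rintro rfl; exact not_adj_self _ h1
          rw [Function.update_of_ne hwv] at h2
          have := hM w
          rcases h2 with h2 | h2
          · exact ⟨h2.2, h1⟩
          · omega
        · rintro ⟨h1, h2⟩
          have hwv : w ≠ v := by rintro rfl; exact not_adj_self _ h2
          exact ⟨h2, Or.inl ⟨hwv, h1⟩⟩
      · have hvY : v ∉ Y := fun h => hv (Finset.mem_erase.mpr ⟨hvv, h⟩)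
        rw [← ht1 v hvY]
        congr 1
        ext w
        simp only [Finset.mem_filter, Finset.mem_univ, true_and, Finset.mem_erase,
          Function.update_of_ne hvv]
        by_cases hwv : w = v0
        · subst hwv
          rw [Function.update_self]
          have := hM v
          simp [hv0, this]
        · rw [Function.update_of_ne hwv]
          simp [hwv]
    · intro u v hu hv huv
      have huY : u ≠ v0 → u ∉ Y := fun h h' => hu (Finset.mem_erase.mpr ⟨h, h'⟩)
      have hvY : v ≠ v0 → v ∉ Y := fun h h' => hv (Finset.mem_erase.mpr ⟨h, h'⟩)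
      by_cases h1 : u = v0
      · subst h1
        rw [Function.update_self, Function.update_of_ne huv.symm]
        exact (hM v).ne'
      · by_cases h2 : v = v0
        · subst h2
          rw [Function.update_self, Function.update_of_ne huv]
          exact (hM u).ne
        · rw [Function.update_of_ne h1, Function.update_of_ne h2]
          exact ht2 u v (huY h1) (hvY h2) huv

/-- Sufficient condition: a removal time certifies reachability. -/
lemma reach_of_time (S : Finset (Cube k l m)) (t : Cube k l m → ℕ)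
    (h1 : ∀ v, v ∉ S →
      (Finset.univ.filter (fun w => Adj v w ∧ (w ∈ S ∨ t v < t w))).card = 3)
    (h2 : ∀ u v, u ∉ S → v ∉ S → t u = t v → u = v) :
    Relation.ReflTransGen Move Finset.univ S := by
  classical
  have key : ∀ n : ℕ, Relation.ReflTransGen Move Finset.univ
      (Finset.univ.filter (fun w : Cube k l m => w ∈ S ∨ n ≤ t w)) := by
    intro n
    induction n with
    | zero =>
      have : (Finset.univ.filter (fun w : Cube k l m => w ∈ S ∨ 0 ≤ t w)) = Finset.univ := by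
        ext w; simp
      rw [this]
    | succ n ih =>
      by_cases hex : ∃ v, v ∉ S ∧ t v = n
      · obtain ⟨v, hv, htv⟩ := hex
        refine ih.tail ⟨v, by simp [htv], ?_, ?_⟩
        · rw [← h1 v hv]
          congr 1
          ext w
          simp only [Finset.mem_filter, Finset.mem_univ, true_and]
          constructor
          · rintro ⟨h3, h4⟩
            refine ⟨h4, ?_⟩
            rcases h3 with h3 | h3
            · exact Or.inl h3
            · by_cases hw : w ∈ S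
              · exact Or.inl hw
              · right
                refine lt_of_le_of_ne (by omega) ?_
                intro he
                have := h2 v w hv hw he
                subst this
                exact not_adj_self _ h4
          · rintro ⟨h3, h4⟩
            refine ⟨?_, h3⟩
            rcases h4 with h4 | h4
            · exact Or.inl h4
            · exact Or.inr (by omega)
        · ext w
          simp only [Finset.mem_filter, Finset.mem_univ, true_and, Finset.mem_erase]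
          constructor
          · rintro (h3 | h3)
            · exact ⟨by rintro rfl; exact hv h3, Or.inl h3⟩
            · exact ⟨by rintro rfl; omega, Or.inr (by omega)⟩
          · rintro ⟨h3, h4 | h4⟩
            · exact Or.inl h4
            · by_cases hw : w ∈ S
              · exact Or.inl hw
              · right
                by_contra hlt
                exact h3 (h2 w v hw hv (by omega))
      · have : (Finset.univ.filter (fun w : Cube k l m => w ∈ S ∨ n + 1 ≤ t w)) =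
            (Finset.univ.filter (fun w : Cube k l m => w ∈ S ∨ n ≤ t w)) := by
          ext w
          simp only [Finset.mem_filter, Finset.mem_univ, true_and]
          constructor
          · rintro (h | h)
            · exact Or.inl h
            · exact Or.inr (by omega)
          · rintro (h | h)
            · exact Or.inl h
            · by_cases hw : w ∈ S
              · exact Or.inl hw
              · right
                rcases Nat.lt_or_ge n (t w) with h' | h'
                · omega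
                · exact absurd ⟨w, hw, by omega⟩ hex
        rw [this]
        exact ih
  have hfin := key ((Finset.univ.sup t) + 1)
  have : (Finset.univ.filter (fun w : Cube k l m => w ∈ S ∨ (Finset.univ.sup t) + 1 ≤ t w)) = S := by
    ext w
    simp only [Finset.mem_filter, Finset.mem_univ, true_and]
    constructor
    · rintro (h | h)
      · exact h
      · have := Finset.le_sup (f := t) (Finset.mem_univ w)
        omega
    · exact Or.inl
  rwa [this] at hfin

/-! ### Statements (b) and (c) -/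

/-- Removal times for `C(2,3,9)` (`0` marks the cubes that stay), indexed by `(i * 3 + j) * 9 + h`. -/
def table239 : List ℕ := [0, 36, 0, 31, 27, 28, 0, 15, 0, 37, 34, 35, 0, 29, 0, 23, 19, 20, 0, 11, 0, 12, 0, 13, 0, 21, 0, 1, 0, 32, 0, 25, 0, 16, 14, 2, 0, 33, 30, 26, 24, 22, 17, 18, 0, 3, 4, 5, 6, 7, 8, 9, 0, 10]

/-- Removal times for `C(3,3,6)` (`0` marks the cubes that stay), indexed by `(i * 3 + j) * 6 + h`. -/
def table336 : List ℕ := [0, 39, 34, 0, 30, 0, 25, 0, 35, 36, 31, 8, 0, 18, 0, 37, 0, 1, 26, 0, 33, 32, 28, 19, 20, 21, 22, 38, 0, 9, 10, 11, 12, 0, 13, 2, 0, 23, 0, 29, 27, 0, 14, 15, 16, 0, 24, 17, 3, 4, 5, 6, 7, 0]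

/-- Look-up of a removal time. -/
def look (T : List ℕ) (l m : ℕ) {k l' m' : ℕ} (v : Cube k l' m') : ℕ :=
  T.getD (((v.1 : ℕ) * l + v.2.1) * m + v.2.2) 0

lemma solution_of_table (T : List ℕ) (k l m : ℕ)
    (h0 : ∀ u v : Cube k l m, look T l m u = 0 → look T l m v = 0 → ¬ Adj u v)
    (h1 : ∀ v : Cube k l m, look T l m v ≠ 0 →
      (Finset.univ.filter (fun w : Cube k l m =>
        Adj v w ∧ (look T l m w = 0 ∨ look T l m v < look T l m w))).card = 3)
    (h2 : ∀ u v : Cube k l m, u = v ∨ look T l m u = 0 ∨ look T l m u ≠ look T l m v) :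
    HasSolution k l m := by
  refine ⟨Finset.univ.filter (fun v => look T l m v = 0), ?_, ?_⟩
  · intro u hu v hv
    simp only [Finset.mem_filter, Finset.mem_univ, true_and] at hu hv
    exact h0 u v hu hv
  · apply reach_of_time _ (look T l m)
    · intro v hv
      simp only [Finset.mem_filter, Finset.mem_univ, true_and] at hv ⊢
      exact h1 v hv
    · intro u v hu hv huv
      simp only [Finset.mem_filter, Finset.mem_univ, true_and] at hu hv
      rcases h2 u v with h | h | h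
      · exact h
      · exact absurd h hu
      · exact absurd huv h

lemma hasSolution_2_3_9 : HasSolution 2 3 9 := by
  apply solution_of_table table239 2 3 9 <;> decide +kernel

lemma hasSolution_3_3_6 : HasSolution 3 3 6 := by
  apply solution_of_table table336 3 3 6 <;> decide +kernel

/-! ### Statement (a) -/

/-- Abstract form of a solution of `C(2,2,k)`: the four columns are indexed cyclically by `Fin 4`,
`X p h` means that the cube in column `p` at height `h` stays, `t p h` is its removal time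
otherwise. -/
structure Good (k : ℕ) (X : Fin 4 → ℕ → Prop) (t : Fin 4 → ℕ → ℕ) : Prop where
  i1 : ∀ p h, h < k → X p h → ¬ X (p + 1) h
  i2 : ∀ p h, h + 1 < k → X p h → ¬ X p (h + 1)
  n1 : ∀ p h, h < k → ¬ X p h → ¬ X (p + 1) h → t p h ≠ t (p + 1) h
  n2 : ∀ p h, h + 1 < k → ¬ X p h → ¬ X p (h + 1) → t p h ≠ t p (h + 1)
  one : ∀ p h, h < k → ¬ X p h →
    ¬ ((¬ X (p + 1) h ∧ t (p + 1) h < t p h) ∧ (¬ X (p + 3) h ∧ t (p + 3) h < t p h))
  oneU : ∀ p h, h + 1 < k → ¬ X p h → ¬ X p (h + 1) → t p (h + 1) < t p h →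
    ¬ (¬ X (p + 1) h ∧ t (p + 1) h < t p h) ∧ ¬ (¬ X (p + 3) h ∧ t (p + 3) h < t p h)
  oneD : ∀ p h, h + 1 < k → ¬ X p (h + 1) → ¬ X p h → t p h < t p (h + 1) →
    ¬ (¬ X (p + 1) (h + 1) ∧ t (p + 1) (h + 1) < t p (h + 1)) ∧
    ¬ (¬ X (p + 3) (h + 1) ∧ t (p + 3) (h + 1) < t p (h + 1))
  oneUD : ∀ p h, h + 2 < k → ¬ X p (h + 1) → ¬ X p h → ¬ X p (h + 2) →
    ¬ (t p h < t p (h + 1) ∧ t p (h + 2) < t p (h + 1))
  e0 : ∀ p h, (h = 0 ∨ h + 1 = k) → h < k → ¬ X p h →
    ¬ (¬ X (p + 1) h ∧ t (p + 1) h < t p h) ∧ ¬ (¬ X (p + 3) h ∧ t (p + 3) h < t p h)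
  e0U : ∀ p, 1 < k → ¬ X p 0 → ¬ (¬ X p 1 ∧ t p 1 < t p 0)
  e1D : ∀ p h, h + 2 = k → ¬ X p (h + 1) → ¬ (¬ X p h ∧ t p h < t p (h + 1))
  two : ∀ p h, h + 2 < k → ¬ X p (h + 1) →
    (¬ X (p + 1) (h + 1) ∧ t (p + 1) (h + 1) < t p (h + 1)) ∨
    (¬ X (p + 3) (h + 1) ∧ t (p + 3) (h + 1) < t p (h + 1)) ∨
    (¬ X p h ∧ t p h < t p (h + 1)) ∨ (¬ X p (h + 2) ∧ t p (h + 2) < t p (h + 1))

lemma Good.rotate {k : ℕ} {X : Fin 4 → ℕ → Prop} {t : Fin 4 → ℕ → ℕ} (g : Good k X t)
    (c : Fin 4) : Good k (fun p h => X (p + c) h) (fun p h => t (p + c) h) := by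
  have e1 : ∀ p : Fin 4, p + 1 + c = p + c + 1 := fun p => by rw [add_right_comm]
  have e3 : ∀ p : Fin 4, p + 3 + c = p + c + 3 := fun p => by rw [add_right_comm]
  constructor
  · intro p h; simp only [e1]; exact g.i1 _ h
  · intro p h; exact g.i2 _ h
  · intro p h; simp only [e1]; exact g.n1 _ h
  · intro p h; exact g.n2 _ h
  · intro p h; simp only [e1, e3]; exact g.one _ h
  · intro p h; simp only [e1, e3]; exact g.oneU _ h
  · intro p h; simp only [e1, e3]; exact g.oneD _ h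
  · intro p h; exact g.oneUD _ h
  · intro p h; simp only [e1, e3]; exact g.e0 _ h
  · intro p; exact g.e0U _
  · intro p h; exact g.e1D _ h
  · intro p h; simp only [e1, e3]; exact g.two _ h

/-- No four-cycle inside a layer consists of removed cubes. -/
lemma Good.cyc {k : ℕ} {X : Fin 4 → ℕ → Prop} {t : Fin 4 → ℕ → ℕ} (g : Good k X t)
    (h : ℕ) (hh : h < k) (h0 : ¬ X 0 h) (h1 : ¬ X 1 h) (h2 : ¬ X 2 h) (h3 : ¬ X 3 h) : False := by
  have a0 : t 0 h ≠ t 1 h := g.n1 0 h hh h0 h1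
  have a1 : t 1 h ≠ t 2 h := g.n1 1 h hh h1 h2
  have a2 : t 2 h ≠ t 3 h := g.n1 2 h hh h2 h3
  have a3 : t 3 h ≠ t 0 h := g.n1 3 h hh h3 h0
  have b0 : ¬ ((¬ X 1 h ∧ t 1 h < t 0 h) ∧ (¬ X 3 h ∧ t 3 h < t 0 h)) := g.one 0 h hh h0
  have b1 : ¬ ((¬ X 2 h ∧ t 2 h < t 1 h) ∧ (¬ X 0 h ∧ t 0 h < t 1 h)) := g.one 1 h hh h1
  have b2 : ¬ ((¬ X 3 h ∧ t 3 h < t 2 h) ∧ (¬ X 1 h ∧ t 1 h < t 2 h)) := g.one 2 h hh h2
  have b3 : ¬ ((¬ X 0 h ∧ t 0 h < t 3 h) ∧ (¬ X 2 h ∧ t 2 h < t 3 h)) := g.one 3 h hh h3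
  simp only [h0, h1, h2, h3, not_false_eq_true, true_and] at b0 b1 b2 b3
  omega

/-- No four-cycle spanned by two neighbouring columns and two neighbouring layers consists of
removed cubes. -/
lemma Good.sq {k : ℕ} {X : Fin 4 → ℕ → Prop} {t : Fin 4 → ℕ → ℕ} (g : Good k X t)
    (p : Fin 4) (h : ℕ) (hh : h + 1 < k) (h0 : ¬ X p h) (h1 : ¬ X (p + 1) h)
    (h2 : ¬ X p (h + 1)) (h3 : ¬ X (p + 1) (h + 1)) : False := by
  have hp : p + 1 + 3 = p := (by decide : ∀ p : Fin 4, p + 1 + 3 = p) p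
  have a0 := g.n1 p h (by omega) h0 h1
  have a1 := g.n1 p (h + 1) hh h2 h3
  have a2 := g.n2 p h hh h0 h2
  have a3 := g.n2 (p + 1) h hh h1 h3
  have b0 := g.oneU p h hh h0 h2
  have b1 := g.oneU (p + 1) h hh h1 h3
  have b2 := g.oneD p h hh h2 h0
  have b3 := g.oneD (p + 1) h hh h3 h1
  rw [hp] at b1 b3
  simp only [h0, h1, h2, h3, not_false_eq_true, true_and] at b0 b1 b2 b3
  omega

/-- No six-cycle `0 1 2` (layer `h`), `2 3 0` (layer `h + 1`) consists of removed cubes. -/
lemma Good.hex {k : ℕ} {X : Fin 4 → ℕ → Prop} {t : Fin 4 → ℕ → ℕ} (g : Good k X t)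
    (h : ℕ) (hh : h + 1 < k) (h0 : ¬ X 0 h) (h1 : ¬ X 1 h) (h2 : ¬ X 2 h)
    (k2 : ¬ X 2 (h + 1)) (k3 : ¬ X 3 (h + 1)) (k0 : ¬ X 0 (h + 1)) : False := by
  have a0 : t 0 h ≠ t 1 h := g.n1 0 h (by omega) h0 h1
  have a1 : t 1 h ≠ t 2 h := g.n1 1 h (by omega) h1 h2
  have a2 : t 2 (h + 1) ≠ t 3 (h + 1) := g.n1 2 (h + 1) hh k2 k3
  have a3 : t 3 (h + 1) ≠ t 0 (h + 1) := g.n1 3 (h + 1) hh k3 k0
  have a4 := g.n2 0 h hh h0 k0
  have a5 := g.n2 2 h hh h2 k2
  have b0 : t 0 (h + 1) < t 0 h → ¬ (¬ X 1 h ∧ t 1 h < t 0 h) ∧ ¬ (¬ X 3 h ∧ t 3 h < t 0 h) :=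
    g.oneU 0 h hh h0 k0
  have b1 : ¬ ((¬ X 2 h ∧ t 2 h < t 1 h) ∧ (¬ X 0 h ∧ t 0 h < t 1 h)) := g.one 1 h (by omega) h1
  have b2 : t 2 (h + 1) < t 2 h → ¬ (¬ X 3 h ∧ t 3 h < t 2 h) ∧ ¬ (¬ X 1 h ∧ t 1 h < t 2 h) :=
    g.oneU 2 h hh h2 k2
  have b3 : t 2 h < t 2 (h + 1) → ¬ (¬ X 3 (h + 1) ∧ t 3 (h + 1) < t 2 (h + 1)) ∧
      ¬ (¬ X 1 (h + 1) ∧ t 1 (h + 1) < t 2 (h + 1)) := g.oneD 2 h hh k2 h2
  have b4 : ¬ ((¬ X 0 (h + 1) ∧ t 0 (h + 1) < t 3 (h + 1)) ∧
      (¬ X 2 (h + 1) ∧ t 2 (h + 1) < t 3 (h + 1))) := g.one 3 (h + 1) hh k3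
  have b5 : t 0 h < t 0 (h + 1) → ¬ (¬ X 1 (h + 1) ∧ t 1 (h + 1) < t 0 (h + 1)) ∧
      ¬ (¬ X 3 (h + 1) ∧ t 3 (h + 1) < t 0 (h + 1)) := g.oneD 0 h hh k0 h0
  simp only [h0, h1, h2, k0, k2, k3, not_false_eq_true, true_and] at b0 b1 b2 b3 b4 b5
  omega

lemma Good.core {k : ℕ} {X : Fin 4 → ℕ → Prop} {t : Fin 4 → ℕ → ℕ} (g : Good k X t)
    (hk : 3 ≤ k) (hk5 : k ≠ 5) (x10 : X 1 0) (x20 : ¬ X 2 0) (x30 : X 3 0)
    (x01 : X 0 1) : False := by
  have x11 : ¬ X 1 1 := g.i2 1 0 (by omega) x10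
  have x31 : ¬ X 3 1 := g.i2 3 0 (by omega) x30
  have x02 : ¬ X 0 2 := g.i2 0 1 (by omega) x01
  by_cases x21 : X 2 1
  · have x22 : ¬ X 2 2 := g.i2 2 1 (by omega) x21
    have x12 : ¬ X 1 2 := by
      have h : (¬ X 2 1 ∧ t 2 1 < t 1 1) ∨ (¬ X 0 1 ∧ t 0 1 < t 1 1) ∨
        (¬ X 1 0 ∧ t 1 0 < t 1 1) ∨ (¬ X 1 2 ∧ t 1 2 < t 1 1) := g.two 1 0 (by omega) x11
      tauto
    have x32 : ¬ X 3 2 := by
      have h : (¬ X 0 1 ∧ t 0 1 < t 3 1) ∨ (¬ X 2 1 ∧ t 2 1 < t 3 1) ∨
        (¬ X 3 0 ∧ t 3 0 < t 3 1) ∨ (¬ X 3 2 ∧ t 3 2 < t 3 1) := g.two 3 0 (by omega) x31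
      tauto
    exact g.cyc 2 (by omega) x02 x12 x22 x32
  · have x22 : ¬ X 2 2 := by
      intro x22
      have x32 : ¬ X 3 2 := g.i1 2 2 (by omega) x22
      have x12 : ¬ X 1 2 := fun h => g.i1 1 2 (by omega) h x22
      exact (g.rotate 1).hex 1 (by omega) x11 x21 x31 x32 x02 x12
    have x12 : X 1 2 := by
      by_contra x12
      exact g.sq 1 1 (by omega) x11 x21 x12 x22
    have x32 : X 3 2 := by
      by_contra x32
      exact g.sq 2 1 (by omega) x21 x31 x22 x32
    rcases Nat.lt_or_ge k 4 with hk4 | hk4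
    · have hk3 : k = 3 := by omega
      subst hk3
      have h1 := g.e1D 2 1 rfl x22
      have h2 := g.e0U 2 (by omega) x20
      have h3 := g.oneUD 2 0 (by omega) x21 x20 x22
      have h4 := g.n2 2 0 (by omega) x20 x21
      have h5 := g.n2 2 1 (by omega) x21 x22
      simp only [x21, not_false_eq_true, true_and, zero_add, Nat.reduceAdd] at h1 h2 h3 h4 h5
      omega
    have x13 : ¬ X 1 3 := g.i2 1 2 (by omega) x12
    have x33 : ¬ X 3 3 := g.i2 3 2 (by omega) x32
    have x03 : ¬ X 0 3 := by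
      have h : (¬ X 1 2 ∧ t 1 2 < t 0 2) ∨ (¬ X 3 2 ∧ t 3 2 < t 0 2) ∨
        (¬ X 0 1 ∧ t 0 1 < t 0 2) ∨ (¬ X 0 3 ∧ t 0 3 < t 0 2) := g.two 0 1 (by omega) x02
      tauto
    have x23 : X 2 3 := by
      by_contra x23
      exact g.cyc 3 (by omega) x03 x13 x23 x33
    rcases Nat.lt_or_ge k 5 with hk5' | hk5'
    · have h1 : ¬ (¬ X 1 3 ∧ t 1 3 < t 0 3) ∧ ¬ (¬ X 3 3 ∧ t 3 3 < t 0 3) :=
        g.e0 0 3 (Or.inr (by omega)) (by omega) x03
      have h2 : ¬ (¬ X 2 3 ∧ t 2 3 < t 1 3) ∧ ¬ (¬ X 0 3 ∧ t 0 3 < t 1 3) :=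
        g.e0 1 3 (Or.inr (by omega)) (by omega) x13
      have h3 : t 0 3 ≠ t 1 3 := g.n1 0 3 (by omega) x03 x13
      simp only [x13, x03, not_false_eq_true, true_and] at h1 h2
      omega
    have hk6 : 6 ≤ k := by omega
    have x24 : ¬ X 2 4 := g.i2 2 3 (by omega) x23
    have x04 : ¬ X 0 4 := by
      intro x04
      have x14 : ¬ X 1 4 := g.i1 0 4 (by omega) x04
      have x34 : ¬ X 3 4 := fun h => g.i1 3 4 (by omega) h x04
      exact (g.rotate 3).hex 3 (by omega) x33 x03 x13 x14 x24 x34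
    have x14 : X 1 4 := by
      by_contra x14
      exact g.sq 0 3 (by omega) x03 x13 x04 x14
    have x34 : X 3 4 := by
      by_contra x34
      exact g.sq 3 3 (by omega) x33 x03 x34 x04
    have x15 : ¬ X 1 5 := g.i2 1 4 (by omega) x14
    have x35 : ¬ X 3 5 := g.i2 3 4 (by omega) x34
    have x25 : ¬ X 2 5 := by
      have h : (¬ X 3 4 ∧ t 3 4 < t 2 4) ∨ (¬ X 1 4 ∧ t 1 4 < t 2 4) ∨
        (¬ X 2 3 ∧ t 2 3 < t 2 4) ∨ (¬ X 2 5 ∧ t 2 5 < t 2 4) := g.two 2 3 (by omega) x24
      tauto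
    by_cases x05 : X 0 5
    · have h02 : (¬ X 1 2 ∧ t 1 2 < t 0 2) ∨ (¬ X 3 2 ∧ t 3 2 < t 0 2) ∨
        (¬ X 0 1 ∧ t 0 1 < t 0 2) ∨ (¬ X 0 3 ∧ t 0 3 < t 0 2) := g.two 0 1 (by omega) x02
      have h03 : (¬ X 1 3 ∧ t 1 3 < t 0 3) ∨ (¬ X 3 3 ∧ t 3 3 < t 0 3) ∨
        (¬ X 0 2 ∧ t 0 2 < t 0 3) ∨ (¬ X 0 4 ∧ t 0 4 < t 0 3) := g.two 0 2 (by omega) x03
      have h13 : (¬ X 2 3 ∧ t 2 3 < t 1 3) ∨ (¬ X 0 3 ∧ t 0 3 < t 1 3) ∨
        (¬ X 1 2 ∧ t 1 2 < t 1 3) ∨ (¬ X 1 4 ∧ t 1 4 < t 1 3) := g.two 1 2 (by omega) x13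
      have h33 : (¬ X 0 3 ∧ t 0 3 < t 3 3) ∨ (¬ X 2 3 ∧ t 2 3 < t 3 3) ∨
        (¬ X 3 2 ∧ t 3 2 < t 3 3) ∨ (¬ X 3 4 ∧ t 3 4 < t 3 3) := g.two 3 2 (by omega) x33
      have h04 : (¬ X 1 4 ∧ t 1 4 < t 0 4) ∨ (¬ X 3 4 ∧ t 3 4 < t 0 4) ∨
        (¬ X 0 3 ∧ t 0 3 < t 0 4) ∨ (¬ X 0 5 ∧ t 0 5 < t 0 4) := g.two 0 3 (by omega) x04
      simp only [x12, x32, x01, x03, x13, x33, x02, x04, x23, x14, x34, x05, not_true_eq_false,
        not_false_eq_true, false_and, true_and, false_or, or_false] at h02 h03 h13 h33 h04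
      omega
    · exact g.cyc 5 (by omega) x05 x15 x25 x35

lemma Good.false {k : ℕ} {X : Fin 4 → ℕ → Prop} {t : Fin 4 → ℕ → ℕ} (g : Good k X t)
    (hk : 3 ≤ k) (hk5 : k ≠ 5) : False := by
  have alt : ∀ p : Fin 4, X p 0 ∨ X (p + 1) 0 := by
    intro p
    by_contra h
    push Not at h
    have hp : p + 1 + 3 = p := (by decide : ∀ p : Fin 4, p + 1 + 3 = p) p
    have h1 := (g.e0 p 0 (Or.inl rfl) (by omega) h.1).1
    have h2 := (g.e0 (p + 1) 0 (Or.inl rfl) (by omega) h.2).2
    rw [hp] at h2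
    have h3 := g.n1 p 0 (by omega) h.1 h.2
    simp only [h.1, h.2, not_false_eq_true, true_and] at h1 h2
    omega
  have fin : ∀ q : Fin 4, X (q + 1) 0 → ¬ X (q + 2) 0 → X (q + 3) 0 → X q 1 → False := by
    intro q h1 h2 h3 h4
    refine (g.rotate q).core hk hk5 ?_ ?_ ?_ ?_
    · rw [add_comm]; exact h1
    · rw [add_comm]; exact h2
    · rw [add_comm]; exact h3
    · rw [zero_add]; exact h4
  have fin2 : ∀ p : Fin 4, ¬ X p 0 → X (p + 1) 0 → ¬ X (p + 2) 0 → X (p + 3) 0 → False := by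
    intro p h0 h1 h2 h3
    have y1 : ¬ X (p + 1) 1 := g.i2 _ 0 (by omega) h1
    have y3 : ¬ X (p + 3) 1 := g.i2 _ 0 (by omega) h3
    by_cases y0 : X p 1
    · exact fin p h1 h2 h3 y0
    · have y2 : X (p + 2) 1 := by
        by_contra y2
        apply (g.rotate p).cyc 1 (by omega)
        · rw [zero_add]; exact y0
        · rw [add_comm]; exact y1
        · rw [add_comm]; exact y2
        · rw [add_comm]; exact y3
      have e1 : p + 2 + 1 = p + 3 := by rw [add_assoc]; rfl
      have e2 : p + 2 + 2 = p := (by decide : ∀ p : Fin 4, p + 2 + 2 = p) p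
      have e3 : p + 2 + 3 = p + 1 := (by decide : ∀ p : Fin 4, p + 2 + 3 = p + 1) p
      exact fin (p + 2) (by rw [e1]; exact h3) (by rw [e2]; exact h0) (by rw [e3]; exact h1) y2
  by_cases h0 : X 0 0
  · have h1 : ¬ X 1 0 := g.i1 0 0 (by omega) h0
    have h2 : X 2 0 := (alt 1).resolve_left h1
    have h3 : ¬ X 3 0 := g.i1 2 0 (by omega) h2
    exact fin2 1 h1 h2 h3 h0
  · have h1 : X 1 0 := (alt 0).resolve_left h0
    have h2 : ¬ X 2 0 := g.i1 1 0 (by omega) h1
    have h3 : X 3 0 := (alt 2).resolve_left h2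
    exact fin2 0 h0 h1 h2 h3

/-- The four columns of the `2 × 2` cross-section, in cyclic order. -/
def pos : Fin 4 → Fin 2 × Fin 2 := ![(0, 0), (0, 1), (1, 1), (1, 0)]

/-- The cube in column `p` at height `h`. -/
def cell {k : ℕ} (p : Fin 4) (h : ℕ) (hh : h < k) : Cube 2 2 k := ((pos p).1, (pos p).2, ⟨h, hh⟩)

lemma adj_cell_iff {k : ℕ} (p : Fin 4) (h : ℕ) (hh : h < k) (w : Cube 2 2 k) :
    Adj (cell p h hh) w ↔ w = cell (p + 1) h hh ∨ w = cell (p + 3) h hh ∨
      (∃ h' : h + 1 < k, w = cell p (h + 1) h') ∨ (∃ g, ∃ hg : g + 1 = h, w = cell p g (by omega)) := by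
  obtain ⟨i, j, ⟨g, hg⟩⟩ := w
  have key : ∀ (p : Fin 4) (i j : Fin 2),
      ((DiffOne (pos p).1 i ∧ (pos p).2 = j) ∨ ((pos p).1 = i ∧ DiffOne (pos p).2 j)) ↔
        ((i, j) = pos (p + 1) ∨ (i, j) = pos (p + 3)) := by decide
  have hk := key p i j
  simp only [Adj, cell, Prod.mk.injEq, Fin.mk.injEq, DiffOne] at hk ⊢
  constructor
  · rintro (⟨h1, h2, h3⟩ | ⟨h1, h2, h3⟩ | ⟨h1, h2, h3⟩)
    · rcases hk.mp (Or.inl ⟨h1, h2⟩) with h4 | h4
      · left; rw [← h4]; exact ⟨rfl, rfl, h3.symm⟩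
      · right; left; rw [← h4]; exact ⟨rfl, rfl, h3.symm⟩
    · rcases hk.mp (Or.inr ⟨h1, h2⟩) with h4 | h4
      · left; rw [← h4]; exact ⟨rfl, rfl, h3.symm⟩
      · right; left; rw [← h4]; exact ⟨rfl, rfl, h3.symm⟩
    · rcases h3 with h3 | h3
      · right; right; left
        exact ⟨by omega, h1.symm, h2.symm, h3.symm⟩
      · right; right; right
        exact ⟨g, h3, h1.symm, h2.symm, rfl⟩
  · rintro (⟨h1, h2, h3⟩ | ⟨h1, h2, h3⟩ | ⟨h', h1, h2, h3⟩ | ⟨g', hg', h1, h2, h3⟩)
    · rcases hk.mpr (Or.inl (Prod.ext h1 h2)) with h4 | h4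
      · exact Or.inl ⟨h4.1, h4.2, h3.symm⟩
      · exact Or.inr (Or.inl ⟨h4.1, h4.2, h3.symm⟩)
    · rcases hk.mpr (Or.inr (Prod.ext h1 h2)) with h4 | h4
      · exact Or.inl ⟨h4.1, h4.2, h3.symm⟩
      · exact Or.inr (Or.inl ⟨h4.1, h4.2, h3.symm⟩)
    · exact Or.inr (Or.inr ⟨h1.symm, h2.symm, Or.inl h3.symm⟩)
    · exact Or.inr (Or.inr ⟨h1.symm, h2.symm, Or.inr (by omega)⟩)

lemma cell_inj {k : ℕ} {p q : Fin 4} {h g : ℕ} {hh : h < k} {hg : g < k}
    (e : cell p h hh = cell q g hg) : p = q ∧ h = g := by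
  simp only [cell, Prod.mk.injEq, Fin.mk.injEq] at e
  refine ⟨?_, e.2.2⟩
  have key : ∀ p q : Fin 4, (pos p).1 = (pos q).1 → (pos p).2 = (pos q).2 → p = q := by decide
  exact key p q e.1 e.2.1

open Classical in
/-- Indicator that `w` stays or is removed later than `v`. -/
noncomputable def ind {k : ℕ} (S : Finset (Cube 2 2 k)) (t : Cube 2 2 k → ℕ) (v w : Cube 2 2 k) :
    ℕ := if w ∈ S ∨ t v < t w then 1 else 0

lemma ind_le {k : ℕ} (S : Finset (Cube 2 2 k)) (t : Cube 2 2 k → ℕ) (v w : Cube 2 2 k) :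
    ind S t v w ≤ 1 := by
  unfold ind; split_ifs <;> omega

lemma ind_zero {k : ℕ} {S : Finset (Cube 2 2 k)} {t : Cube 2 2 k → ℕ} {v w : Cube 2 2 k}
    (h1 : w ∉ S) (h2 : t w < t v) : ind S t v w = 0 := by
  unfold ind
  rw [if_neg]
  rintro (h | h)
  · exact h1 h
  · omega

lemma of_ind_zero {k : ℕ} {S : Finset (Cube 2 2 k)} {t : Cube 2 2 k → ℕ} {v w : Cube 2 2 k}
    (h : ind S t v w = 0) : w ∉ S ∧ t w ≤ t v := by
  unfold ind at h
  split_ifs at h with h'
  push Not at h'
  exact h'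

lemma count_int {k : ℕ} (S : Finset (Cube 2 2 k)) (t : Cube 2 2 k → ℕ)
    (h1 : ∀ v, v ∉ S →
      (Finset.univ.filter (fun w => Adj v w ∧ (w ∈ S ∨ t v < t w))).card = 3)
    (p : Fin 4) (h : ℕ) (hh : h + 2 < k) (hv : cell p (h + 1) (by omega) ∉ S) :
    ind S t (cell p (h + 1) (by omega)) (cell (p + 1) (h + 1) (by omega)) +
    ind S t (cell p (h + 1) (by omega)) (cell (p + 3) (h + 1) (by omega)) +
    ind S t (cell p (h + 1) (by omega)) (cell p h (by omega)) +
    ind S t (cell p (h + 1) (by omega)) (cell p (h + 2) hh) = 3 := by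
  classical
  have e := h1 _ hv
  have hset : (Finset.univ.filter (fun w => Adj (cell p (h + 1) (by omega)) w ∧
      (w ∈ S ∨ t (cell p (h + 1) (by omega)) < t w))) =
      ({cell (p + 1) (h + 1) (by omega), cell (p + 3) (h + 1) (by omega), cell p h (by omega),
        cell p (h + 2) hh} : Finset (Cube 2 2 k)).filter
        (fun w => w ∈ S ∨ t (cell p (h + 1) (by omega)) < t w) := by
    ext w
    simp only [Finset.mem_filter, Finset.mem_univ, true_and, Finset.mem_insert,
      Finset.mem_singleton, adj_cell_iff]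
    constructor
    · rintro ⟨h2 | h2 | ⟨_, h2⟩ | ⟨g, hg, h2⟩, h3⟩
      · exact ⟨Or.inl h2, h3⟩
      · exact ⟨Or.inr (Or.inl h2), h3⟩
      · exact ⟨Or.inr (Or.inr (Or.inr h2)), h3⟩
      · have : g = h := by omega
        subst this
        exact ⟨Or.inr (Or.inr (Or.inl h2)), h3⟩
    · rintro ⟨h2 | h2 | h2 | h2, h3⟩
      · exact ⟨Or.inl h2, h3⟩
      · exact ⟨Or.inr (Or.inl h2), h3⟩
      · exact ⟨Or.inr (Or.inr (Or.inr ⟨h, rfl, h2⟩)), h3⟩
      · exact ⟨Or.inr (Or.inr (Or.inl ⟨hh, h2⟩)), h3⟩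
  rw [hset, Finset.card_filter, Finset.sum_insert, Finset.sum_insert, Finset.sum_insert,
    Finset.sum_singleton] at e
  · unfold ind
    omega
  · rw [Finset.mem_singleton]
    intro e'
    have := (cell_inj e').2
    omega
  · rw [Finset.mem_insert, Finset.mem_singleton]
    rintro (e' | e')
    · have := (cell_inj e').2; omega
    · have := (cell_inj e').2; omega
  · rw [Finset.mem_insert, Finset.mem_insert, Finset.mem_singleton]
    rintro (e' | e' | e')
    · exact (by decide : ∀ p : Fin 4, p + 1 ≠ p + 3) p (cell_inj e').1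
    · have := (cell_inj e').2; omega
    · have := (cell_inj e').2; omega

lemma count_end {k : ℕ} (S : Finset (Cube 2 2 k)) (t : Cube 2 2 k → ℕ)
    (h1 : ∀ v, v ∉ S →
      (Finset.univ.filter (fun w => Adj v w ∧ (w ∈ S ∨ t v < t w))).card = 3)
    (p : Fin 4) (h g : ℕ) (hh : h < k) (hg : g < k)
    (hend : (h = 0 ∧ g = 1) ∨ (h + 1 = k ∧ g + 1 = h)) (hv : cell p h hh ∉ S) :
    ind S t (cell p h hh) (cell (p + 1) h hh) + ind S t (cell p h hh) (cell (p + 3) h hh) +
    ind S t (cell p h hh) (cell p g hg) = 3 := by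
  classical
  have e := h1 _ hv
  have hset : (Finset.univ.filter (fun w => Adj (cell p h hh) w ∧
      (w ∈ S ∨ t (cell p h hh) < t w))) =
      ({cell (p + 1) h hh, cell (p + 3) h hh, cell p g hg} : Finset (Cube 2 2 k)).filter
        (fun w => w ∈ S ∨ t (cell p h hh) < t w) := by
    ext w
    simp only [Finset.mem_filter, Finset.mem_univ, true_and, Finset.mem_insert,
      Finset.mem_singleton, adj_cell_iff]
    constructor
    · rintro ⟨h2 | h2 | ⟨h4, h2⟩ | ⟨g', hg', h2⟩, h3⟩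
      · exact ⟨Or.inl h2, h3⟩
      · exact ⟨Or.inr (Or.inl h2), h3⟩
      · have : g = h + 1 := by omega
        subst this
        exact ⟨Or.inr (Or.inr h2), h3⟩
      · have : g' = g := by omega
        subst this
        exact ⟨Or.inr (Or.inr h2), h3⟩
    · rintro ⟨h2 | h2 | h2, h3⟩
      · exact ⟨Or.inl h2, h3⟩
      · exact ⟨Or.inr (Or.inl h2), h3⟩
      · rcases hend with ⟨he1, he2⟩ | ⟨he1, he2⟩
        · have : g = h + 1 := by omega
          subst this
          exact ⟨Or.inr (Or.inr (Or.inl ⟨hg, h2⟩)), h3⟩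
        · exact ⟨Or.inr (Or.inr (Or.inr ⟨g, he2, h2⟩)), h3⟩
  rw [hset, Finset.card_filter, Finset.sum_insert, Finset.sum_insert, Finset.sum_singleton] at e
  · unfold ind
    omega
  · rw [Finset.mem_singleton]
    intro e'
    have := (cell_inj e').2
    omega
  · rw [Finset.mem_insert, Finset.mem_singleton]
    rintro (e' | e')
    · exact (by decide : ∀ p : Fin 4, p + 1 ≠ p + 3) p (cell_inj e').1
    · have := (cell_inj e').2; omega

lemma good_of_solution {k : ℕ} (hk : 3 ≤ k) (S : Finset (Cube 2 2 k)) (t : Cube 2 2 k → ℕ)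
    (hS : ∀ u ∈ S, ∀ v ∈ S, ¬ Adj u v)
    (h1 : ∀ v, v ∉ S →
      (Finset.univ.filter (fun w => Adj v w ∧ (w ∈ S ∨ t v < t w))).card = 3)
    (h2 : ∀ u v, u ∉ S → v ∉ S → u ≠ v → t u ≠ t v) :
    Good k (fun p h => ∃ hh : h < k, cell p h hh ∈ S)
      (fun p h => if hh : h < k then t (cell p h hh) else 0) := by
  classical
  have hX : ∀ (p : Fin 4) (h : ℕ) (hh : h < k),
      (∃ hh : h < k, cell p h hh ∈ S) ↔ cell p h hh ∈ S :=
    fun p h hh => ⟨fun ⟨_, e⟩ => e, fun e => ⟨hh, e⟩⟩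
  have hT : ∀ (p : Fin 4) (h : ℕ) (hh : h < k),
      (if hh : h < k then t (cell p h hh) else 0) = t (cell p h hh) :=
    fun p h hh => dif_pos hh
  have ne1 : ∀ (p : Fin 4) (h : ℕ) (hh : h < k), cell p h hh ∉ S → cell (p + 1) h hh ∉ S →
      t (cell p h hh) ≠ t (cell (p + 1) h hh) := by
    intro p h hh a b
    exact h2 _ _ a b (fun e => (by decide : ∀ p : Fin 4, p ≠ p + 1) p (cell_inj e).1)
  have ne3 : ∀ (p : Fin 4) (h : ℕ) (hh : h < k), cell p h hh ∉ S → cell (p + 3) h hh ∉ S →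
      t (cell p h hh) ≠ t (cell (p + 3) h hh) := by
    intro p h hh a b
    exact h2 _ _ a b (fun e => (by decide : ∀ p : Fin 4, p ≠ p + 3) p (cell_inj e).1)
  have neV : ∀ (p : Fin 4) (h g : ℕ) (hh : h < k) (hg : g < k), h ≠ g → cell p h hh ∉ S →
      cell p g hg ∉ S → t (cell p h hh) ≠ t (cell p g hg) := by
    intro p h g hh hg hne a b
    exact h2 _ _ a b (fun e => hne (cell_inj e).2)
  constructor
  · -- i1
    intro p h hh a b
    rw [hX p h hh] at a
    rw [hX (p + 1) h hh] at b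
    exact hS _ a _ b ((adj_cell_iff p h hh _).mpr (Or.inl rfl))
  · -- i2
    intro p h hh a b
    rw [hX p h (by omega)] at a
    rw [hX p (h + 1) hh] at b
    exact hS _ a _ b ((adj_cell_iff p h (by omega) _).mpr (Or.inr (Or.inr (Or.inl ⟨hh, rfl⟩))))
  · -- n1
    intro p h hh a b
    rw [hX p h hh] at a
    rw [hX (p + 1) h hh] at b
    simp only [dif_pos hh]
    exact ne1 p h hh a b
  · -- n2
    intro p h hh a b
    rw [hX p h (by omega)] at a
    rw [hX p (h + 1) hh] at b
    simp only [dif_pos hh, dif_pos (show h < k by omega)]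
    exact neV p h (h + 1) _ _ (by omega) a b
  · -- one
    rintro p h hh a ⟨⟨b1, b2⟩, ⟨c1, c2⟩⟩
    rw [hX p h hh] at a
    rw [hX (p + 1) h hh] at b1
    rw [hX (p + 3) h hh] at c1
    simp only [dif_pos hh] at b2 c2
    have z1 := ind_zero (v := cell p h hh) b1 b2
    have z3 := ind_zero (v := cell p h hh) c1 c2
    by_cases he : h = 0
    · subst he
      have := count_end S t h1 p 0 1 hh (by omega) (Or.inl ⟨rfl, rfl⟩) a
      have := ind_le S t (cell p 0 hh) (cell p 1 (by omega))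
      omega
    · obtain ⟨h, rfl⟩ := Nat.exists_eq_succ_of_ne_zero he
      simp only [Nat.succ_eq_add_one] at *
      by_cases hl : h + 2 = k
      · have := count_end S t h1 p (h + 1) h hh (by omega) (Or.inr ⟨hl, rfl⟩) a
        have := ind_le S t (cell p (h + 1) hh) (cell p h (by omega))
        omega
      · have := count_int S t h1 p h (by omega) a
        have := ind_le S t (cell p (h + 1) hh) (cell p h (by omega))
        have := ind_le S t (cell p (h + 1) hh) (cell p (h + 2) (by omega))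
        omega
  · -- oneU
    intro p h hh a b hlt
    rw [hX p h (by omega)] at a
    rw [hX p (h + 1) hh] at b
    simp only [dif_pos hh, dif_pos (show h < k by omega)] at hlt
    have zU := ind_zero (v := cell p h (by omega)) b hlt
    have l1 := ind_le S t (cell p h (by omega)) (cell (p + 1) h (by omega))
    have l3 := ind_le S t (cell p h (by omega)) (cell (p + 3) h (by omega))
    have tot : ind S t (cell p h (by omega)) (cell (p + 1) h (by omega)) +
        ind S t (cell p h (by omega)) (cell (p + 3) h (by omega)) ≥ 2 := by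
      by_cases he : h = 0
      · subst he
        have := count_end S t h1 p 0 1 (by omega) hh (Or.inl ⟨rfl, rfl⟩) a
        simp only [zero_add] at zU
        omega
      · obtain ⟨h, rfl⟩ := Nat.exists_eq_succ_of_ne_zero he
        simp only [Nat.succ_eq_add_one] at *
        have := count_int S t h1 p h (by omega) a
        have := ind_le S t (cell p (h + 1) (by omega)) (cell p h (by omega))
        have zU' : ind S t (cell p (h + 1) (by omega)) (cell p (h + 2) (by omega)) = 0 := zU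
        omega
    constructor
    · rintro ⟨c1, c2⟩
      rw [hX (p + 1) h (by omega)] at c1
      simp only [dif_pos (show h < k by omega)] at c2
      have := ind_zero (v := cell p h (by omega)) c1 c2
      omega
    · rintro ⟨c1, c2⟩
      rw [hX (p + 3) h (by omega)] at c1
      simp only [dif_pos (show h < k by omega)] at c2
      have := ind_zero (v := cell p h (by omega)) c1 c2
      omega
  · -- oneD
    intro p h hh a b hlt
    rw [hX p (h + 1) hh] at a
    rw [hX p h (by omega)] at b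
    simp only [dif_pos hh, dif_pos (show h < k by omega)] at hlt
    have zD := ind_zero (v := cell p (h + 1) hh) b hlt
    have l1 := ind_le S t (cell p (h + 1) hh) (cell (p + 1) (h + 1) hh)
    have l3 := ind_le S t (cell p (h + 1) hh) (cell (p + 3) (h + 1) hh)
    have tot : ind S t (cell p (h + 1) hh) (cell (p + 1) (h + 1) hh) +
        ind S t (cell p (h + 1) hh) (cell (p + 3) (h + 1) hh) ≥ 2 := by
      by_cases hl : h + 2 = k
      · have := count_end S t h1 p (h + 1) h hh (by omega) (Or.inr ⟨hl, rfl⟩) a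
        omega
      · have := count_int S t h1 p h (by omega) a
        have := ind_le S t (cell p (h + 1) hh) (cell p (h + 2) (by omega))
        omega
    constructor
    · rintro ⟨c1, c2⟩
      rw [hX (p + 1) (h + 1) hh] at c1
      simp only [dif_pos hh] at c2
      have := ind_zero (v := cell p (h + 1) hh) c1 c2
      omega
    · rintro ⟨c1, c2⟩
      rw [hX (p + 3) (h + 1) hh] at c1
      simp only [dif_pos hh] at c2
      have := ind_zero (v := cell p (h + 1) hh) c1 c2
      omega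
  · -- oneUD
    rintro p h hh a b c ⟨d1, d2⟩
    rw [hX p (h + 1) (by omega)] at a
    rw [hX p h (by omega)] at b
    rw [hX p (h + 2) hh] at c
    simp only [dif_pos hh, dif_pos (show h < k by omega), dif_pos (show h + 1 < k by omega)]
      at d1 d2
    have z1 := ind_zero (v := cell p (h + 1) (by omega)) b d1
    have z2 := ind_zero (v := cell p (h + 1) (by omega)) c d2
    have := count_int S t h1 p h hh a
    have := ind_le S t (cell p (h + 1) (by omega)) (cell (p + 1) (h + 1) (by omega))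
    have := ind_le S t (cell p (h + 1) (by omega)) (cell (p + 3) (h + 1) (by omega))
    omega
  · -- e0
    intro p h he hh a
    rw [hX p h hh] at a
    have tot : ind S t (cell p h hh) (cell (p + 1) h hh) +
        ind S t (cell p h hh) (cell (p + 3) h hh) ≥ 2 := by
      rcases he with rfl | he
      · have := count_end S t h1 p 0 1 hh (by omega) (Or.inl ⟨rfl, rfl⟩) a
        have := ind_le S t (cell p 0 hh) (cell p 1 (by omega))
        omega
      · obtain ⟨g, rfl⟩ := Nat.exists_eq_succ_of_ne_zero (show h ≠ 0 by omega)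
        simp only [Nat.succ_eq_add_one] at *
        have := count_end S t h1 p (g + 1) g hh (by omega) (Or.inr ⟨he, rfl⟩) a
        have := ind_le S t (cell p (g + 1) hh) (cell p g (by omega))
        omega
    have l1 := ind_le S t (cell p h hh) (cell (p + 1) h hh)
    have l3 := ind_le S t (cell p h hh) (cell (p + 3) h hh)
    constructor
    · rintro ⟨c1, c2⟩
      rw [hX (p + 1) h hh] at c1
      simp only [dif_pos hh] at c2
      have := ind_zero (v := cell p h hh) c1 c2
      omega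
    · rintro ⟨c1, c2⟩
      rw [hX (p + 3) h hh] at c1
      simp only [dif_pos hh] at c2
      have := ind_zero (v := cell p h hh) c1 c2
      omega
  · -- e0U
    rintro p hk1 a ⟨c1, c2⟩
    rw [hX p 0 (by omega)] at a
    rw [hX p 1 hk1] at c1
    simp only [dif_pos hk1, dif_pos (show 0 < k by omega)] at c2
    have := count_end S t h1 p 0 1 (by omega) hk1 (Or.inl ⟨rfl, rfl⟩) a
    have := ind_zero (v := cell p 0 (by omega)) c1 c2
    have := ind_le S t (cell p 0 (by omega)) (cell (p + 1) 0 (by omega))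
    have := ind_le S t (cell p 0 (by omega)) (cell (p + 3) 0 (by omega))
    omega
  · -- e1D
    rintro p h he a ⟨c1, c2⟩
    rw [hX p (h + 1) (by omega)] at a
    rw [hX p h (by omega)] at c1
    simp only [dif_pos (show h < k by omega), dif_pos (show h + 1 < k by omega)] at c2
    have := count_end S t h1 p (h + 1) h (by omega) (by omega) (Or.inr ⟨he, rfl⟩) a
    have := ind_zero (v := cell p (h + 1) (by omega)) c1 c2
    have := ind_le S t (cell p (h + 1) (by omega)) (cell (p + 1) (h + 1) (by omega))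
    have := ind_le S t (cell p (h + 1) (by omega)) (cell (p + 3) (h + 1) (by omega))
    omega
  · -- two
    intro p h hh a
    rw [hX p (h + 1) (by omega)] at a
    have tot := count_int S t h1 p h hh a
    have l1 := ind_le S t (cell p (h + 1) (by omega)) (cell (p + 1) (h + 1) (by omega))
    have l3 := ind_le S t (cell p (h + 1) (by omega)) (cell (p + 3) (h + 1) (by omega))
    have lD := ind_le S t (cell p (h + 1) (by omega)) (cell p h (by omega))
    have lU := ind_le S t (cell p (h + 1) (by omega)) (cell p (h + 2) hh)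
    rw [hX (p + 1) (h + 1) (by omega), hX (p + 3) (h + 1) (by omega), hX p h (by omega),
      hX p (h + 2) hh]
    simp only [dif_pos hh, dif_pos (show h < k by omega), dif_pos (show h + 1 < k by omega)]
    by_cases z1 : ind S t (cell p (h + 1) (by omega)) (cell (p + 1) (h + 1) (by omega)) = 0
    · have := of_ind_zero z1
      exact Or.inl ⟨this.1, lt_of_le_of_ne this.2 (ne1 p (h + 1) _ a this.1).symm⟩
    by_cases z3 : ind S t (cell p (h + 1) (by omega)) (cell (p + 3) (h + 1) (by omega)) = 0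
    · have := of_ind_zero z3
      exact Or.inr (Or.inl ⟨this.1, lt_of_le_of_ne this.2 (ne3 p (h + 1) _ a this.1).symm⟩)
    by_cases zD : ind S t (cell p (h + 1) (by omega)) (cell p h (by omega)) = 0
    · have := of_ind_zero zD
      exact Or.inr (Or.inr (Or.inl ⟨this.1, lt_of_le_of_ne this.2
        (neV p (h + 1) h _ _ (by omega) a this.1).symm⟩))
    · have zU : ind S t (cell p (h + 1) (by omega)) (cell p (h + 2) hh) = 0 := by omega
      have := of_ind_zero zU
      exact Or.inr (Or.inr (Or.inr ⟨this.1, lt_of_le_of_ne this.2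
        (neV p (h + 1) (h + 2) _ _ (by omega) a this.1).symm⟩))

/-- Statement (a) is true. -/
theorem statementA : StatementA := by
  rintro k hk hk5 ⟨S, hS, hreach⟩
  obtain ⟨t, h1, h2⟩ := exists_time hreach
  exact (good_of_solution hk S t hS h1 h2).false hk hk5

/-- Statement (a) is true; statements (b) and (c) are false: `C(2,3,9)` and `C(3,3,6)` have
solutions. -/
theorem result :
    StatementA ∧ ¬ StatementB ∧ ¬ StatementC ∧ HasSolution 2 3 9 ∧ HasSolution 3 3 6 := by
  refine ⟨statementA, ?_, ?_, hasSolution_2_3_9, hasSolution_3_3_6⟩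
  · intro h
    exact h 9 (by norm_num) (by norm_num) hasSolution_2_3_9
  · intro h
    exact h.2 6 (by norm_num) (by decide) (by norm_num) hasSolution_3_3_6

end Pool.Agent.Results.MP_93d976_co.ThinCuboids
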